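import Pool.Agent.Lib.MP_b6d339_lc.Final592
import Pool.Agent.Lib.MP_b6d339_lc.T3.Main

/-!
# Erdős problem 592: the countable `β` with `ω ^ β → (ω ^ β, 3)²`

`MPb6.Arrow3 α` is the relation `α → (α, 3)²`. For a countable ordinal `β ≥ 3` which is not of one
of the forms `ω ^ (ω ^ a)`, `ω ^ (ω ^ a + ω ^ b)` (for these the relation is known to hold), the
relation `ω ^ β → (ω ^ β, 3)²` holds if and only if `β = ω ^ (γ₁ + γ₂ + γ₃)` with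
`γ₁ ≥ γ₂ ≥ γ₃` and every `γᵢ` either `1` or an epsilon number.
-/

open Ordinal

namespace Pool.Agent.Results.MP_b6d339_lc.Classification

/-- Let `β ≥ 3` be a countable ordinal, not of the form `ω ^ (ω ^ a)` or `ω ^ (ω ^ a + ω ^ b)`.
Then `ω ^ β → (ω ^ β, 3)²` if and only if `β = ω ^ (g₁ + g₂ + g₃)` for some `g₁ ≥ g₂ ≥ g₃`, each of
them `1` or an epsilon number. -/
theorem result {β : Ordinal.{0}} (hβ : β.card ≤ Cardinal.aleph0) (h3 : 3 ≤ β)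
    (h1 : ∀ a : Ordinal.{0}, β ≠ ω ^ (ω ^ a))
    (h2 : ∀ a b : Ordinal.{0}, β ≠ ω ^ (ω ^ a + ω ^ b)) :
    MPb6.Arrow3 (ω ^ β) ↔ ∃ g1 g2 g3 : Ordinal.{0}, (g1 = 1 ∨ ω ^ g1 = g1) ∧
      (g2 = 1 ∨ ω ^ g2 = g2) ∧ (g3 = 1 ∨ ω ^ g3 = g3) ∧ g3 ≤ g2 ∧ g2 ≤ g1 ∧
      β = ω ^ (g1 + g2 + g3) :=
  MPb6.classification MPb6P.TT3_main hβ h3 h1 h2

end Pool.Agent.Results.MP_b6d339_lc.Classification
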